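import Pool.Agent.Q289.KW.Defs

/-!
# The k-width: bounds by counting
-/

set_option autoImplicit false

namespace Q289.KW

theorem IsKChain.mono {α : Type} {k : ℕ} {lt lt' : α → α → Prop} (h : ∀ x y, lt x y → lt' x y)
    {A : Set α} (hA : IsKChain k lt A) : IsKChain k lt' A := by
  obtain ⟨r, hr, par, h1, h2, h3, h4, h5⟩ := hA
  exact ⟨r, hr, par, h1, h2, h3, h4, fun x hx y hy hne hm => h _ _ (h5 x hx y hy hne hm)⟩

theorem singleton_chain {α : Type} (k : ℕ) (lt : α → α → Prop) (a : α) :
    IsKChain k lt {i | i = a} := by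
  refine ⟨a, rfl, id, rfl, fun y hy => hy, fun y hy => ⟨0, hy⟩, ?_, ?_⟩
  · intro x _
    have : {y | y ∈ {i | i = a} ∧ y ≠ a ∧ id y = x} = (∅ : Set α) := by
      ext y
      simp only [Set.mem_ofPred_eq, Set.mem_empty_iff_false, iff_false]
      rintro ⟨h1, h2, _⟩
      exact h2 h1
    rw [this, Set.ncard_empty]
    exact Nat.zero_le k
  · intro x hx y hy hne _
    exact absurd (hy.trans hx.symm) hne

theorem width_set_nonempty {n : ℕ} (k : ℕ) (lt : Fin n → Fin n → Prop) :
    {m | ∃ c : Fin n → Fin m, Function.Surjective c ∧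
      ∀ j, IsKChain k lt {i | c i = j}}.Nonempty :=
  ⟨n, id, Function.surjective_id, fun j => singleton_chain k lt j⟩

theorem width_spec {n : ℕ} (k : ℕ) (lt : Fin n → Fin n → Prop) :
    ∃ c : Fin n → Fin (kWidth k lt), Function.Surjective c ∧
      ∀ j, IsKChain k lt {i | c i = j} := Nat.sInf_mem (width_set_nonempty k lt)

theorem width_le {n : ℕ} (k : ℕ) (lt : Fin n → Fin n → Prop) (m : ℕ) (c : Fin n → Fin m)
    (hc : Function.Surjective c) (h : ∀ j, IsKChain k lt {i | c i = j}) : kWidth k lt ≤ m :=
  Nat.sInf_le ⟨c, hc, h⟩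

theorem width_le_n {n : ℕ} (k : ℕ) (lt : Fin n → Fin n → Prop) : kWidth k lt ≤ n :=
  width_le k lt n id Function.surjective_id fun j => singleton_chain k lt j

theorem width_mono {n : ℕ} (k : ℕ) {lt lt' : Fin n → Fin n → Prop}
    (h : ∀ x y, lt x y → lt' x y) : kWidth k lt' ≤ kWidth k lt := by
  obtain ⟨c, hc, h2⟩ := width_spec k lt
  exact width_le k lt' _ c hc fun j => (h2 j).mono h

/-- lower bound -/
theorem width_lower {n : ℕ} (k : ℕ) (lt : Fin n → Fin n → Prop) (Y Z : Finset (Fin n))
    (hZ : ∀ y ∈ Y, ∀ x, lt x y → x ∈ Z) : Y.card ≤ kWidth k lt + k * Z.card := by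
  classical
  obtain ⟨c, hc, h⟩ := width_spec k lt
  choose r hr par h1 h2 h3 h4 h5 using h
  set p : Fin n → Fin n := fun y => par (c y) y with hp
  have hcp : ∀ y, c (p y) = c y := fun y => h2 (c y) y rfl
  -- roots
  set Y0 := Y.filter (fun y => y = r (c y)) with hY0
  set Y1 := Y.filter (fun y => ¬ y = r (c y)) with hY1
  have hcard : Y.card = Y0.card + Y1.card := by
    rw [hY0, hY1, Finset.card_filter_add_card_filter_not]
  have hY0c : Y0.card ≤ kWidth k lt := by
    have : Y0.card ≤ (Finset.univ : Finset (Fin (kWidth k lt))).card := by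
      refine Finset.card_le_card_of_injOn c (fun _ _ => Finset.mem_univ _) ?_
      intro a ha b hb hab
      have ha' := (Finset.mem_filter.1 ha).2
      have hb' := (Finset.mem_filter.1 hb).2
      rw [ha', hb', hab]
    simpa using this
  have hlt : ∀ y, y ≠ r (c y) → lt (p y) y := by
    intro y hy
    refine h5 (c y) (p y) (hcp y) y rfl ?_ ⟨1, rfl⟩
    intro heq
    -- a fixed point must be the root
    obtain ⟨m, hm⟩ := h3 (c y) y rfl
    have hfix : Function.IsFixedPt (par (c y)) y := heq.symm
    have : (par (c y))^[m] y = y := (hfix.iterate m)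
    exact hy (this.symm.trans hm)
  have hY1c : Y1.card ≤ k * Z.card := by
    have hsub : Y1 ⊆ Z.biUnion (fun x => Finset.univ.filter (fun y => y ≠ r (c y) ∧ p y = x)) := by
      intro y hy
      obtain ⟨hyY, hne⟩ := Finset.mem_filter.1 hy
      rw [Finset.mem_biUnion]
      exact ⟨p y, hZ y hyY _ (hlt y hne), Finset.mem_filter.2 ⟨Finset.mem_univ _, hne, rfl⟩⟩
    refine (Finset.card_le_card hsub).trans ?_
    refine Finset.card_biUnion_le.trans ?_
    rw [mul_comm, ← smul_eq_mul]
    refine Finset.sum_le_card_nsmul _ _ _ fun x _ => ?_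
    have := h4 (c x) x rfl
    refine le_trans ?_ this
    rw [← Set.ncard_coe_finset]
    refine Set.ncard_le_ncard ?_ (Set.toFinite _)
    intro y hy
    simp only [Finset.coe_filter, Finset.mem_univ, true_and, Set.mem_ofPred_eq] at hy
    have hcy : c y = c x := by rw [← hy.2, hcp]
    refine ⟨hcy, ?_, ?_⟩
    · rw [← hcy]; exact hy.1
    · rw [← hcy]; exact hy.2
  omega

/-- iterating a decreasing map reaches a fixed point -/
theorem exists_fixed {n : ℕ} {lt : Fin n → Fin n → Prop} (htr : ∀ x y z, lt x y → lt y z → lt x z)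
    (hirr : ∀ x, ¬ lt x x) (par : Fin n → Fin n) (hpar : ∀ y, par y = y ∨ lt (par y) y)
    (y : Fin n) : ∃ m, par (par^[m] y) = par^[m] y := by
  have hwf : WellFounded lt := by
    have : IsTrans (Fin n) lt := ⟨htr⟩
    have : Std.Irrefl lt := ⟨hirr⟩
    exact Finite.wellFounded_of_trans_of_irrefl lt
  induction y using hwf.induction with
  | _ y ih =>
    rcases hpar y with h | h
    · exact ⟨0, h⟩
    · obtain ⟨m, hm⟩ := ih (par y) h
      exact ⟨m + 1, hm⟩

theorem fixed_unique {α : Type} (par : α → α) {y r r' : α} {m m' : ℕ} (h1 : par^[m] y = r)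
    (h2 : par r = r) (h1' : par^[m'] y = r') (h2' : par r' = r') : r = r' := by
  rcases le_total m m' with h | h
  · obtain ⟨j, rfl⟩ := Nat.exists_eq_add_of_le h
    rw [add_comm, Function.iterate_add_apply, h1] at h1'
    have : par^[j] r = r := (show Function.IsFixedPt par r from h2).iterate j
    exact this.symm.trans h1'
  · obtain ⟨j, rfl⟩ := Nat.exists_eq_add_of_le h
    rw [add_comm, Function.iterate_add_apply, h1'] at h1
    have : par^[j] r' = r' := (show Function.IsFixedPt par r' from h2').iterate j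
    exact h1.symm.trans this

theorem iter_lt {n : ℕ} {lt : Fin n → Fin n → Prop} (htr : ∀ x y z, lt x y → lt y z → lt x z)
    (par : Fin n → Fin n) (hpar : ∀ y, par y = y ∨ lt (par y) y) (m : ℕ) :
    ∀ y, par^[m] y = y ∨ lt (par^[m] y) y := by
  induction m with
  | zero => exact fun y => Or.inl rfl
  | succ m ih =>
    intro y
    rw [Function.iterate_succ_apply]
    rcases ih (par y) with h | h
    · rw [h]; exact hpar y
    · rcases hpar y with h' | h'
      · rw [h'] at h ⊢; exact Or.inr h
      · exact Or.inr (htr _ _ _ h h')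

/-- upper bound -/
theorem width_upper {n : ℕ} (k D : ℕ) {lt : Fin n → Fin n → Prop}
    (htr : ∀ x y z, lt x y → lt y z → lt x z) (hirr : ∀ x, ¬ lt x x)
    (h : ∀ Y : Finset (Fin n), ∃ Z : Finset (Fin n), (∀ x ∈ Z, ∃ y ∈ Y, lt x y) ∧
      Y.card ≤ k * Z.card + D) : kWidth k lt ≤ D := by
  classical
  -- Hall's theorem with `D` additional elements
  set t : Fin n → Finset ((Fin n × Fin k) ⊕ Fin D) := fun y =>
    Finset.univ.filter (fun z => match z with | Sum.inl w => lt w.1 y | Sum.inr _ => True) with ht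
  have hall : ∀ s : Finset (Fin n), s.card ≤ (s.biUnion t).card := by
    intro s
    by_cases hs : s.Nonempty
    · obtain ⟨Z, hZ, hc⟩ := h s
      have hsub : (Z ×ˢ (Finset.univ : Finset (Fin k))).disjSum (Finset.univ : Finset (Fin D)) ⊆
          s.biUnion t := by
        intro z hz
        rw [Finset.mem_disjSum] at hz
        rw [Finset.mem_biUnion]
        rcases hz with ⟨w, hw, rfl⟩ | ⟨w, hw, rfl⟩
        · obtain ⟨y, hy, hlt⟩ := hZ w.1 (Finset.mem_product.1 hw).1
          exact ⟨y, hy, by simp [ht, hlt]⟩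
        · obtain ⟨y, hy⟩ := hs
          exact ⟨y, hy, by simp [ht]⟩
      have := Finset.card_le_card hsub
      rw [Finset.card_disjSum, Finset.card_product, Finset.card_univ, Finset.card_univ,
        Fintype.card_fin, Fintype.card_fin] at this
      rw [mul_comm k] at hc
      exact hc.trans this
    · rw [Finset.not_nonempty_iff_eq_empty] at hs
      simp [hs]
  obtain ⟨f, hf, hft⟩ := (Finset.all_card_le_biUnion_card_iff_exists_injective t).1 hall
  -- the parent function
  set par : Fin n → Fin n := fun y => match f y with | Sum.inl w => w.1 | Sum.inr _ => y with hpar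
  have hpl : ∀ y w, f y = Sum.inl w → par y = w.1 ∧ lt w.1 y := by
    intro y w hw
    refine ⟨by simp [hpar, hw], ?_⟩
    have := hft y
    rw [hw] at this
    simpa [ht] using this
  have hpr : ∀ y w, f y = Sum.inr w → par y = y := fun y w hw => by simp [hpar, hw]
  have hparlt : ∀ y, par y = y ∨ lt (par y) y := by
    intro y
    rcases hfy : f y with w | w
    · obtain ⟨h1, h2⟩ := hpl y w hfy
      right; rw [h1]; exact h2
    · left; exact hpr y w hfy
  choose m hm using exists_fixed htr hirr par hparlt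
  set rt : Fin n → Fin n := fun y => par^[m y] y with hrt
  have hrtfix : ∀ y, par (rt y) = rt y := hm
  have hrtu : ∀ y r j, par^[j] y = r → par r = r → rt y = r := fun y r j h1 h2 =>
    fixed_unique par rfl (hrtfix y) h1 h2
  have hrtpar : ∀ y, rt (par y) = rt y := by
    intro y
    symm
    refine hrtu y (rt (par y)) (m (par y) + 1) ?_ (hrtfix _)
    rw [Function.iterate_succ_apply]
  have hrtit : ∀ j y, rt (par^[j] y) = rt y := by
    intro j
    induction j with
    | zero => exact fun y => rfl
    | succ j ih =>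
      intro y
      rw [Function.iterate_succ_apply, ih, hrtpar]
  set Roots : Finset (Fin n) := Finset.univ.filter (fun y => par y = y) with hRoots
  have hrtmem : ∀ y, rt y ∈ Roots := fun y => Finset.mem_filter.2 ⟨Finset.mem_univ _, hrtfix y⟩
  have hRc : Roots.card ≤ D := by
    have hdum : ∀ y ∈ Roots, ∃ w, f y = Sum.inr w := by
      intro y hy
      rcases hfy : f y with w | w
      · obtain ⟨h1, h2⟩ := hpl y w hfy
        have h3 := (Finset.mem_filter.1 hy).2
        rw [← h1, h3] at h2
        exact absurd h2 (hirr y)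
      · exact ⟨w, rfl⟩
    choose g hg using hdum
    have : Roots.attach.card ≤ (Finset.univ : Finset (Fin D)).card := by
      refine Finset.card_le_card_of_injOn (fun y => g y.1 y.2) (fun _ _ => Finset.mem_univ _) ?_
      intro a _ b _ hab
      have h1 := hg a.1 a.2
      have h2 := hg b.1 b.2
      have hab' : g a.1 a.2 = g b.1 b.2 := hab
      rw [hab', ← h2] at h1
      exact Subtype.ext (hf h1)
    simpa using this
  refine le_trans ?_ hRc
  set e := Roots.equivFin with he
  refine width_le k lt Roots.card (fun y => e ⟨rt y, hrtmem y⟩) ?_ ?_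
  · intro j
    refine ⟨(e.symm j).1, ?_⟩
    have h1 := (Finset.mem_filter.1 (e.symm j).2).2
    have h2 : rt (e.symm j).1 = (e.symm j).1 := hrtu _ _ 0 rfl h1
    have h3 : (⟨rt (e.symm j).1, hrtmem _⟩ : Roots) = e.symm j := Subtype.ext h2
    simp only [h3, Equiv.apply_symm_apply]
  · intro j
    set r : Fin n := (e.symm j).1 with hr
    have hrfix : par r = r := (Finset.mem_filter.1 (e.symm j).2).2
    have hclass : ∀ y, e ⟨rt y, hrtmem y⟩ = j ↔ rt y = r := by
      intro y
      rw [← Equiv.eq_symm_apply, Subtype.ext_iff]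
    have hset : {i | e ⟨rt i, hrtmem i⟩ = j} = {i | rt i = r} := by
      ext y; exact hclass y
    rw [hset]
    refine ⟨r, hrtu r r 0 rfl hrfix, par, hrfix, fun y hy => (hrtpar y).trans hy,
      fun y hy => ⟨m y, hy⟩, ?_, ?_⟩
    · intro x _
      -- at most `k` children
      have hinl : ∀ y ∈ {y | y ∈ {i | rt i = r} ∧ y ≠ r ∧ par y = x}, ∃ w, f y = Sum.inl w := by
        rintro y ⟨h1, h2, h3⟩
        rcases hfy : f y with w | w
        · exact ⟨w, rfl⟩
        · exfalso
          have h4 := hpr y w hfy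
          have h5 : rt y = y := hrtu y y 0 rfl h4
          exact h2 (h5.symm.trans h1)
      have hcard : {y | y ∈ {i | rt i = r} ∧ y ≠ r ∧ par y = x}.ncard ≤ k := by
        choose g hg using hinl
        rw [← Nat.card_coe_set_eq, ← Nat.card_fin k]
        refine Nat.card_le_card_of_injective
          (fun y : {y | y ∈ {i | rt i = r} ∧ y ≠ r ∧ par y = x} => (g y.1 y.2).2) ?_
        intro a b hab
        have h1 := hg a.1 a.2
        have h2 := hg b.1 b.2
        have h3 : (g a.1 a.2).1 = x := by rw [← (hpl a.1 _ h1).1]; exact a.2.2.2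
        have h4 : (g b.1 b.2).1 = x := by rw [← (hpl b.1 _ h2).1]; exact b.2.2.2
        have h5 : g a.1 a.2 = g b.1 b.2 := Prod.ext (h3.trans h4.symm) hab
        rw [h5, ← h2] at h1
        exact Subtype.ext (hf h1)
      exact hcard
    · rintro x _ y _ hne ⟨i, hi⟩
      rcases iter_lt htr par hparlt i y with h1 | h1
      · exact absurd (h1.symm.trans hi) hne
      · rwa [hi] at h1

end Q289.KW
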