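import Mathlib

/-!
# The k-width of random intervals: definitions
-/

set_option autoImplicit false

open MeasureTheory

namespace Q289.KW

/-- `A` is a `k`-ary chain for the strict order `lt`: there is a rooted tree with vertex set `A`,
given by its root `r` and its parent function `par` (with `par r = r`, and every vertex reaches `r`
by iterating `par`), every vertex has at most `k` children, and `lt x y` holds whenever `y` is a
descendant of `x` -/
def IsKChain {α : Type} (k : ℕ) (lt : α → α → Prop) (A : Set α) : Prop :=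
  ∃ r ∈ A, ∃ par : α → α, par r = r ∧ (∀ y ∈ A, par y ∈ A) ∧ (∀ y ∈ A, ∃ m, par^[m] y = r) ∧
    (∀ x ∈ A, {y | y ∈ A ∧ y ≠ r ∧ par y = x}.ncard ≤ k) ∧
    ∀ x ∈ A, ∀ y ∈ A, y ≠ x → (∃ m, par^[m] y = x) → lt x y

/-- the `k`-width of the strict order `lt` on `{0, ..., n - 1}`: the least number `m` of classes of
a partition (the fibres of a surjection `c` onto `{0, ..., m - 1}`) into `k`-ary chains -/
noncomputable def kWidth {n : ℕ} (k : ℕ) (lt : Fin n → Fin n → Prop) : ℕ :=
  sInf {m | ∃ c : Fin n → Fin m, Function.Surjective c ∧ ∀ j, IsKChain k lt {i | c i = j}}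

/-- left endpoint of the interval with endpoints `x.1` and `x.2` -/
noncomputable def lo (x : ℝ × ℝ) : ℝ := min x.1 x.2

/-- right endpoint -/
noncomputable def hi (x : ℝ × ℝ) : ℝ := max x.1 x.2

/-- the law of `n` independent random intervals, given by pairs of independent uniform points of
`(0, 1)` -/
noncomputable def law (n : ℕ) : Measure (Fin n → ℝ × ℝ) :=
  Measure.pi fun _ => (volume.restrict (Set.Ioo (0 : ℝ) 1)).prod (volume.restrict (Set.Ioo (0 : ℝ) 1))

/-- the order of a set of intervals: `i` is entirely to the left of `j` -/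
def setLt {n : ℕ} (ω : Fin n → ℝ × ℝ) (i j : Fin n) : Prop := hi (ω i) ≤ lo (ω j)

/-- the order of a sequence of intervals: `i` comes before `j` and is entirely to its left -/
def seqLt {n : ℕ} (ω : Fin n → ℝ × ℝ) (i j : Fin n) : Prop := i < j ∧ hi (ω i) ≤ lo (ω j)

end Q289.KW
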