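import Pool.Agent.Q289.KW.Prob

/-!
# The k-width of random intervals: the deterministic estimate
-/

set_option autoImplicit false

open MeasureTheory ProbabilityTheory

namespace Q289.KW

/-- deviation of the number of left endpoints -/
noncomputable def devA {n : ℕ} (T : Finset (Fin n)) (y : ℝ) (ω : Fin n → ℝ × ℝ) : ℝ :=
  |(((T.filter fun i => lo (ω i) ≤ y).card : ℕ) : ℝ) - T.card * nu.real {z | lo z ≤ y}|

/-- deviation of the number of right endpoints -/
noncomputable def devB {n : ℕ} (T : Finset (Fin n)) (y : ℝ) (ω : Fin n → ℝ × ℝ) : ℝ :=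
  |(((T.filter fun i => hi (ω i) ≤ y).card : ℕ) : ℝ) - T.card * nu.real {z | hi z ≤ y}|

theorem devA_nonneg {n : ℕ} (T : Finset (Fin n)) (y : ℝ) (ω : Fin n → ℝ × ℝ) : 0 ≤ devA T y ω :=
  abs_nonneg _

theorem devB_nonneg {n : ℕ} (T : Finset (Fin n)) (y : ℝ) (ω : Fin n → ℝ × ℝ) : 0 ≤ devB T y ω :=
  abs_nonneg _

theorem approxA {n : ℕ} (T : Finset (Fin n)) (M : ℕ) (hM : 0 < M) (ω : Fin n → ℝ × ℝ) {x : ℝ}
    (h0 : 0 ≤ x) (h1 : x ≤ 1) : (((T.filter fun i => lo (ω i) ≤ x).card : ℕ) : ℝ) ≤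
      T.card * (2 * x - x ^ 2) + T.card * (2 / M) +
        ∑ g ∈ Finset.range (M + 1), devA T ((g : ℝ) / M) ω := by
  have hM' : (0 : ℝ) < M := by exact_mod_cast hM
  set g : ℕ := ⌈x * M⌉₊ with hg
  have hg1 : x * M ≤ g := Nat.le_ceil _
  have hg2 : (g : ℝ) < x * M + 1 := Nat.ceil_lt_add_one (by positivity)
  have hgM : g ≤ M := by
    rw [hg, Nat.ceil_le]
    nlinarith
  set y : ℝ := (g : ℝ) / M with hy
  have hxy : x ≤ y := by rw [hy, le_div_iff₀ hM']; exact hg1
  have hyx : y ≤ x + 1 / M := by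
    rw [hy, div_le_iff₀ hM']
    have : (x + 1 / M) * M = x * M + 1 := by field_simp
    rw [this]; exact hg2.le
  have hy1 : y ≤ 1 := by
    rw [hy, div_le_one hM']
    exact_mod_cast hgM
  have hc : (T.filter fun i => lo (ω i) ≤ x).card ≤ (T.filter fun i => lo (ω i) ≤ y).card := by
    refine Finset.card_le_card fun i hi => ?_
    rw [Finset.mem_filter] at hi ⊢
    exact ⟨hi.1, hi.2.trans hxy⟩
  have hc' : (((T.filter fun i => lo (ω i) ≤ x).card : ℕ) : ℝ) ≤
      (((T.filter fun i => lo (ω i) ≤ y).card : ℕ) : ℝ) := by exact_mod_cast hc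
  have hd : (((T.filter fun i => lo (ω i) ≤ y).card : ℕ) : ℝ) - T.card * (2 * y - y ^ 2) ≤
      ∑ g ∈ Finset.range (M + 1), devA T ((g : ℝ) / M) ω := by
    have h2 : (((T.filter fun i => lo (ω i) ≤ y).card : ℕ) : ℝ) - T.card * (2 * y - y ^ 2) ≤
        devA T y ω := by
      unfold devA
      rw [nu_lo (h0.trans hxy) hy1]
      exact le_abs_self _
    refine h2.trans ?_
    exact Finset.single_le_sum (f := fun g : ℕ => devA T ((g : ℝ) / M) ω)
      (fun _ _ => devA_nonneg _ _ _) (Finset.mem_range.2 (by omega))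
  have h3 : 2 * y - y ^ 2 ≤ 2 * x - x ^ 2 + 2 / M := by
    have : 2 / (M : ℝ) = 2 * (1 / M) := by ring
    rw [this]
    nlinarith
  have h4 : (T.card : ℝ) * (2 * y - y ^ 2) ≤ T.card * (2 * x - x ^ 2 + 2 / M) :=
    mul_le_mul_of_nonneg_left h3 (Nat.cast_nonneg _)
  rw [mul_add] at h4
  linarith

theorem approxB {n : ℕ} (T : Finset (Fin n)) (M : ℕ) (hM : 0 < M) (ω : Fin n → ℝ × ℝ) {x : ℝ}
    (h0 : 0 ≤ x) (h1 : x ≤ 1) : T.card * x ^ 2 - T.card * (2 / M) -
        ∑ g ∈ Finset.range (M + 1), devB T ((g : ℝ) / M) ω ≤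
      (((T.filter fun i => hi (ω i) ≤ x).card : ℕ) : ℝ) := by
  have hM' : (0 : ℝ) < M := by exact_mod_cast hM
  set g : ℕ := ⌊x * M⌋₊ with hg
  have hg1 : (g : ℝ) ≤ x * M := Nat.floor_le (by positivity)
  have hg2 : x * M < g + 1 := Nat.lt_floor_add_one _
  have hgM : g ≤ M := by
    have : (g : ℝ) ≤ M := hg1.trans (by nlinarith)
    exact_mod_cast this
  set y : ℝ := (g : ℝ) / M with hy
  have hy0 : 0 ≤ y := by positivity
  have hyx : y ≤ x := by rw [hy, div_le_iff₀ hM']; exact hg1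
  have hxy : x ≤ y + 1 / M := by
    have h5 : y + 1 / M = (g + 1) / M := by rw [hy]; ring
    rw [h5, le_div_iff₀ hM']
    exact hg2.le
  have hc : (T.filter fun i => hi (ω i) ≤ y).card ≤ (T.filter fun i => hi (ω i) ≤ x).card := by
    refine Finset.card_le_card fun i hi => ?_
    rw [Finset.mem_filter] at hi ⊢
    exact ⟨hi.1, hi.2.trans hyx⟩
  have hc' : (((T.filter fun i => hi (ω i) ≤ y).card : ℕ) : ℝ) ≤
      (((T.filter fun i => hi (ω i) ≤ x).card : ℕ) : ℝ) := by exact_mod_cast hc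
  have hd : T.card * y ^ 2 - (((T.filter fun i => hi (ω i) ≤ y).card : ℕ) : ℝ) ≤
      ∑ g ∈ Finset.range (M + 1), devB T ((g : ℝ) / M) ω := by
    have h2 : T.card * y ^ 2 - (((T.filter fun i => hi (ω i) ≤ y).card : ℕ) : ℝ) ≤
        devB T y ω := by
      unfold devB
      rw [nu_hi hy0 (hyx.trans h1), abs_sub_comm]
      exact le_abs_self _
    refine h2.trans ?_
    exact Finset.single_le_sum (f := fun g : ℕ => devB T ((g : ℝ) / M) ω)
      (fun _ _ => devB_nonneg _ _ _) (Finset.mem_range.2 (by omega))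
  have h3 : x ^ 2 ≤ y ^ 2 + 2 / M := by
    have : 2 / (M : ℝ) = 2 * (1 / M) := by ring
    rw [this]
    nlinarith
  have h4 : (T.card : ℝ) * x ^ 2 ≤ T.card * (y ^ 2 + 2 / M) :=
    mul_le_mul_of_nonneg_left h3 (Nat.cast_nonneg _)
  rw [mul_add] at h4
  linarith

/-- a block of indices -/
def blk (n L s : ℕ) : Finset (Fin n) := Finset.univ.filter fun i => i.val / L = s

theorem blk_card_le {n L : ℕ} (hL : 0 < L) (s : ℕ) : (blk n L s).card ≤ L := by
  have : (blk n L s).card ≤ (Finset.range L).card := by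
    refine Finset.card_le_card_of_injOn (fun i => i.val % L)
      (fun i _ => Finset.mem_coe.2 (Finset.mem_range.2 (Nat.mod_lt _ hL))) ?_
    intro a ha b hb hab
    have h1 := (Finset.mem_filter.1 ha).2
    have h2 := (Finset.mem_filter.1 hb).2
    have h3 : a.val % L = b.val % L := hab
    apply Fin.ext
    rw [← Nat.div_add_mod a.val L, ← Nat.div_add_mod b.val L, h1, h2, h3]
  simpa using this

theorem sum_fiber {n L : ℕ} (T : Finset (Fin n)) :
    T.card = ∑ s ∈ Finset.range (n / L + 1), (T.filter fun i => i.val / L = s).card := by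
  refine Finset.card_eq_sum_card_fiberwise (f := fun i : Fin n => i.val / L) fun i _ => ?_
  rw [Finset.mem_coe, Finset.mem_range]
  exact Nat.lt_succ_of_le (Nat.div_le_div_right i.2.le)

/-- the error term -/
noncomputable def err (n k L M : ℕ) (ω : Fin n → ℝ × ℝ) : ℝ :=
  n / (k + 1) + L + n * ((1 + k) * (2 / M)) + ∑ s ∈ Finset.range (n / L + 1),
    ((∑ g ∈ Finset.range (M + 1), devA (blk n L s) ((g : ℝ) / M) ω) +
      k * ∑ g ∈ Finset.range (M + 1), devB (blk n L s) ((g : ℝ) / M) ω)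

theorem det_bound {n k L M : ℕ} (hL : 0 < L) (hM : 0 < M) (ω : Fin n → ℝ × ℝ)
    (hω : ∀ i, 0 < lo (ω i) ∧ hi (ω i) < 1) (Y : Finset (Fin n)) :
    ∃ Z : Finset (Fin n), (∀ x ∈ Z, ∃ y ∈ Y, seqLt ω x y) ∧
      (Y.card : ℝ) ≤ k * Z.card + err n k L M ω := by
  classical
  have hlohi : ∀ i, lo (ω i) ≤ hi (ω i) := fun i => min_le_max
  set X : ℕ → NNReal := fun s => (Y.filter fun j => s ≤ j.val / L).sup
    fun j => (lo (ω j)).toNNReal with hX
  have hXanti : ∀ s, X (s + 1) ≤ X s := by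
    intro s
    refine Finset.sup_mono fun j hj => ?_
    rw [Finset.mem_filter] at hj ⊢
    exact ⟨hj.1, by omega⟩
  have hX1 : ∀ s, X s ≤ 1 := by
    intro s
    refine Finset.sup_le fun j _ => ?_
    rw [Real.toNNReal_le_one]
    exact ((hlohi j).trans_lt (hω j).2).le
  have hXr0 : ∀ s, (0 : ℝ) ≤ X s := fun s => (X s).2
  have hXr1 : ∀ s, (X s : ℝ) ≤ 1 := fun s => by exact_mod_cast hX1 s
  have hXra : ∀ s, (X (s + 1) : ℝ) ≤ X s := fun s => by exact_mod_cast hXanti s
  have hXle : ∀ j ∈ Y, lo (ω j) ≤ X (j.val / L) := by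
    intro j hj
    have h1 : (lo (ω j)).toNNReal ≤ X (j.val / L) :=
      Finset.le_sup (f := fun j => (lo (ω j)).toNNReal) (Finset.mem_filter.2 ⟨hj, le_rfl⟩)
    have h2 : ((lo (ω j)).toNNReal : ℝ) ≤ X (j.val / L) := by exact_mod_cast h1
    exact (Real.le_coe_toNNReal _).trans h2
  refine ⟨Finset.univ.filter fun i => hi (ω i) ≤ X (i.val / L + 1), ?_, ?_⟩
  · intro i hi'
    have h1 : hi (ω i) ≤ X (i.val / L + 1) := (Finset.mem_filter.1 hi').2
    have hpos : 0 < hi (ω i) := (hω i).1.trans_le (hlohi i)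
    have hXpos : 0 < X (i.val / L + 1) := by
      have : (0 : ℝ) < X (i.val / L + 1) := hpos.trans_le h1
      exact_mod_cast this
    have hne : (Y.filter fun j => i.val / L + 1 ≤ j.val / L).Nonempty := by
      rw [Finset.nonempty_iff_ne_empty]
      intro h
      have : X (i.val / L + 1) = 0 := by
        simp only [hX, h, Finset.sup_empty, bot_eq_zero']
      exact hXpos.ne' this
    obtain ⟨j, hj, hjX⟩ := Finset.exists_mem_eq_sup _ hne fun j => (lo (ω j)).toNNReal
    obtain ⟨hjY, hij⟩ := Finset.mem_filter.1 hj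
    have hjX' : X (i.val / L + 1) = (lo (ω j)).toNNReal := hjX
    rw [hjX', Real.coe_toNNReal _ (hω j).1.le] at h1
    refine ⟨j, hjY, ?_, h1⟩
    rw [Fin.lt_def]
    by_contra hcon
    have : j.val / L ≤ i.val / L := Nat.div_le_div_right (not_lt.1 hcon)
    omega
  · set Z : Finset (Fin n) := Finset.univ.filter fun i => hi (ω i) ≤ X (i.val / L + 1) with hZ
    have hYs : ∀ s, (((Y.filter fun i => i.val / L = s).card : ℕ) : ℝ) ≤
        (blk n L s).card * (2 * (X s : ℝ) - (X s : ℝ) ^ 2) + (blk n L s).card * (2 / M) +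
          ∑ g ∈ Finset.range (M + 1), devA (blk n L s) ((g : ℝ) / M) ω := by
      intro s
      refine le_trans ?_ (approxA (blk n L s) M hM ω (hXr0 s) (hXr1 s))
      have : (Y.filter fun i => i.val / L = s).card ≤
          ((blk n L s).filter fun i => lo (ω i) ≤ X s).card := by
        refine Finset.card_le_card fun i hi' => ?_
        obtain ⟨h1, h2⟩ := Finset.mem_filter.1 hi'
        rw [Finset.mem_filter]
        refine ⟨Finset.mem_filter.2 ⟨Finset.mem_univ _, h2⟩, ?_⟩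
        rw [← h2]
        exact hXle i h1
      exact_mod_cast this
    have hZs : ∀ s, (blk n L s).card * (X (s + 1) : ℝ) ^ 2 - (blk n L s).card * (2 / M) -
          ∑ g ∈ Finset.range (M + 1), devB (blk n L s) ((g : ℝ) / M) ω ≤
        (((Z.filter fun i => i.val / L = s).card : ℕ) : ℝ) := by
      intro s
      refine (approxB (blk n L s) M hM ω (hXr0 (s + 1)) (hXr1 (s + 1))).trans ?_
      have : ((blk n L s).filter fun i => hi (ω i) ≤ X (s + 1)).card ≤
          (Z.filter fun i => i.val / L = s).card := by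
        refine Finset.card_le_card fun i hi' => ?_
        obtain ⟨h1, h2⟩ := Finset.mem_filter.1 hi'
        have h3 := (Finset.mem_filter.1 h1).2
        rw [Finset.mem_filter]
        refine ⟨Finset.mem_filter.2 ⟨Finset.mem_univ _, ?_⟩, h3⟩
        rw [h3]
        exact h2
      exact_mod_cast this
    have hYc : (Y.card : ℝ) = ∑ s ∈ Finset.range (n / L + 1),
        (((Y.filter fun i => i.val / L = s).card : ℕ) : ℝ) := by
      rw [sum_fiber (L := L) Y]; push_cast; rfl
    have hZc : (Z.card : ℝ) = ∑ s ∈ Finset.range (n / L + 1),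
        (((Z.filter fun i => i.val / L = s).card : ℕ) : ℝ) := by
      rw [sum_fiber (L := L) Z]; push_cast; rfl
    have hnc : (n : ℝ) = ∑ s ∈ Finset.range (n / L + 1), ((blk n L s).card : ℝ) := by
      have := sum_fiber (L := L) (Finset.univ : Finset (Fin n))
      rw [Finset.card_univ, Fintype.card_fin] at this
      have h2 : (n : ℝ) = ((∑ s ∈ Finset.range (n / L + 1),
        ((Finset.univ : Finset (Fin n)).filter fun i => i.val / L = s).card : ℕ) : ℝ) := by
        exact_mod_cast this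
      rw [h2]; push_cast; rfl
    have hk : (0 : ℝ) < (k : ℝ) + 1 := by positivity
    -- the main comparison for one block
    have hone : ∀ s, (((Y.filter fun i => i.val / L = s).card : ℕ) : ℝ) ≤
        k * (((Z.filter fun i => i.val / L = s).card : ℕ) : ℝ) +
          ((blk n L s).card * (1 / ((k : ℝ) + 1)) + L * ((2 * (X s : ℝ) - (X s : ℝ) ^ 2) -
            (2 * (X (s + 1) : ℝ) - (X (s + 1) : ℝ) ^ 2)) +
            (blk n L s).card * ((1 + k) * (2 / M)) +
            ((∑ g ∈ Finset.range (M + 1), devA (blk n L s) ((g : ℝ) / M) ω) +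
      k * ∑ g ∈ Finset.range (M + 1), devB (blk n L s) ((g : ℝ) / M) ω)) := by
      intro s
      have h1 := hYs s
      have h2 := mul_le_mul_of_nonneg_left (hZs s) (Nat.cast_nonneg k (α := ℝ))
      have h3 : 0 ≤ (2 * (X s : ℝ) - (X s : ℝ) ^ 2) -
            (2 * (X (s + 1) : ℝ) - (X (s + 1) : ℝ) ^ 2) := by
        have := hXra s
        have := hXr1 s
        nlinarith [hXr1 (s + 1)]
      have h4 : ((blk n L s).card : ℝ) ≤ L := by exact_mod_cast blk_card_le hL s
      have h5 := mul_le_mul_of_nonneg_right h4 h3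
      have h6 : (2 * (X (s + 1) : ℝ) - (X (s + 1) : ℝ) ^ 2) - k * (X (s + 1) : ℝ) ^ 2 ≤
          1 / ((k : ℝ) + 1) := by
        rw [le_div_iff₀ hk]
        nlinarith [sq_nonneg (((k : ℝ) + 1) * X (s + 1) - 1)]
      have h7 := mul_le_mul_of_nonneg_left h6 (Nat.cast_nonneg (blk n L s).card (α := ℝ))
      set c : ℝ := ((blk n L s).card : ℝ)
      set u : ℝ := (X s : ℝ)
      set v : ℝ := (X (s + 1) : ℝ)
      set q : ℝ := 1 / ((k : ℝ) + 1)
      set w : ℝ := 2 / (M : ℝ)
      linarith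
    have htel : ∑ s ∈ Finset.range (n / L + 1), ((2 * (X s : ℝ) - (X s : ℝ) ^ 2) -
            (2 * (X (s + 1) : ℝ) - (X (s + 1) : ℝ) ^ 2)) ≤ 1 := by
      rw [Finset.sum_range_sub' (fun s => 2 * (X s : ℝ) - (X s : ℝ) ^ 2)]
      have := hXr0 (n / L + 1)
      have := hXr1 (n / L + 1)
      nlinarith [sq_nonneg (1 - (X 0 : ℝ))]
    have hsum := Finset.sum_le_sum fun s (_ : s ∈ Finset.range (n / L + 1)) => hone s
    rw [← hYc] at hsum
    rw [Finset.sum_add_distrib, ← Finset.mul_sum, ← hZc, Finset.sum_add_distrib,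
      Finset.sum_add_distrib, Finset.sum_add_distrib, ← Finset.sum_mul, ← Finset.sum_mul, ← hnc,
      ← Finset.mul_sum] at hsum
    have h8 : (L : ℝ) * ∑ s ∈ Finset.range (n / L + 1), ((2 * (X s : ℝ) - (X s : ℝ) ^ 2) -
            (2 * (X (s + 1) : ℝ) - (X (s + 1) : ℝ) ^ 2)) ≤ L * 1 :=
      mul_le_mul_of_nonneg_left htel (Nat.cast_nonneg _)
    unfold err
    have h9 : (n : ℝ) * (1 / ((k : ℝ) + 1)) = n / (k + 1) := by ring
    rw [h9] at hsum
    linarith

theorem seq_upper {n k L M : ℕ} (hL : 0 < L) (hM : 0 < M) (ω : Fin n → ℝ × ℝ)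
    (hω : ∀ i, 0 < lo (ω i) ∧ hi (ω i) < 1) : (kWidth k (seqLt ω) : ℝ) ≤ err n k L M ω := by
  have he : 0 ≤ err n k L M ω := by
    unfold err
    have h1 : 0 ≤ ∑ s ∈ Finset.range (n / L + 1),
    ((∑ g ∈ Finset.range (M + 1), devA (blk n L s) ((g : ℝ) / M) ω) +
      k * ∑ g ∈ Finset.range (M + 1), devB (blk n L s) ((g : ℝ) / M) ω) := by
      refine Finset.sum_nonneg fun s _ => add_nonneg (Finset.sum_nonneg fun g _ =>
        devA_nonneg _ _ _) (mul_nonneg (Nat.cast_nonneg _) (Finset.sum_nonneg fun g _ =>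
        devB_nonneg _ _ _))
    positivity
  refine le_trans ?_ (Nat.floor_le he)
  have : kWidth k (seqLt ω) ≤ ⌊err n k L M ω⌋₊ := by
    refine width_upper k _ ?_ ?_ ?_
    · rintro x y z ⟨h1, h2⟩ ⟨h3, h4⟩
      exact ⟨h1.trans h3, h2.trans ((min_le_max : lo (ω y) ≤ hi (ω y)).trans h4)⟩
    · rintro x ⟨h1, _⟩
      exact lt_irrefl _ h1
    · intro Y
      obtain ⟨Z, hZ, hc⟩ := det_bound (k := k) hL hM ω hω Y
      refine ⟨Z, hZ, ?_⟩
      have h1 : Y.card - k * Z.card ≤ ⌊err n k L M ω⌋₊ := by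
        refine Nat.le_floor ?_
        rcases le_total (k * Z.card) Y.card with h | h
        · rw [Nat.cast_sub h]; push_cast; linarith
        · rw [Nat.sub_eq_zero_of_le h]; simpa using he
      omega
  exact_mod_cast this

end Q289.KW
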