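import Pool.Agent.Q289.KW.Det

/-!
# The k-width of random intervals: the limit
-/

set_option autoImplicit false

open MeasureTheory ProbabilityTheory Filter Topology

namespace Q289.KW

theorem measurable_width {n : ℕ} (k : ℕ) (rel : (Fin n → ℝ × ℝ) → Fin n → Fin n → Prop)
    (h : ∀ i j, MeasurableSet {ω | rel ω i j}) :
    Measurable fun ω => (kWidth k (rel ω) : ℝ) := by
  have h1 : Measurable rel := by
    refine measurable_pi_lambda _ fun i => measurable_pi_lambda _ fun j => ?_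
    exact measurableSet_setOfPred.1 (h i j)
  have h2 : Measurable fun r : Fin n → Fin n → Prop => (kWidth k r : ℝ) := measurable_of_finite _
  exact h2.comp h1

theorem integrable_width {n : ℕ} (k : ℕ) (rel : (Fin n → ℝ × ℝ) → Fin n → Fin n → Prop)
    (h : ∀ i j, MeasurableSet {ω | rel ω i j}) :
    Integrable (fun ω => (kWidth k (rel ω) : ℝ)) (law n) := by
  refine Integrable.of_bound (measurable_width k rel h).aestronglyMeasurable n
    (Eventually.of_forall fun ω => ?_)
  rw [Real.norm_of_nonneg (Nat.cast_nonneg _)]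
  exact_mod_cast width_le_n k (rel ω)

theorem meas_setLt {n : ℕ} (i j : Fin n) :
    MeasurableSet {ω : Fin n → ℝ × ℝ | setLt ω i j} :=
  measurableSet_le (measurable_hi.comp (measurable_pi_apply i))
    (measurable_lo.comp (measurable_pi_apply j))

theorem meas_seqLt {n : ℕ} (i j : Fin n) :
    MeasurableSet {ω : Fin n → ℝ × ℝ | seqLt ω i j} := by
  by_cases h : i < j
  · have : {ω : Fin n → ℝ × ℝ | seqLt ω i j} = {ω | setLt ω i j} := by
      ext ω; simp [seqLt, setLt, h]
    rw [this]; exact meas_setLt i j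
  · have : {ω : Fin n → ℝ × ℝ | seqLt ω i j} = ∅ := by
      ext ω; simp [seqLt, h]
    rw [this]; exact MeasurableSet.empty

theorem integrable_card {n : ℕ} (T : Finset (Fin n)) {P : ℝ × ℝ → Prop} [DecidablePred P]
    (hP : MeasurableSet {z | P z}) :
    Integrable (fun ω : Fin n → ℝ × ℝ => (((T.filter fun i => P (ω i)).card : ℕ) : ℝ))
      (law n) := by
  have h1 : ∀ ω : Fin n → ℝ × ℝ, (((T.filter fun i => P (ω i)).card : ℕ) : ℝ) =
      ∑ i ∈ T, (if P (ω i) then (1 : ℝ) else 0) := by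
    intro ω
    rw [Finset.card_filter]
    push_cast
    rfl
  simp_rw [h1]
  refine integrable_finsetSum _ fun i _ => ?_
  refine integrable_comp_eval (μ := fun _ : Fin n => nu) (i := i)
    (f := fun z => if P z then (1 : ℝ) else 0) ?_
  refine Integrable.of_bound (measurable_indic hP).aestronglyMeasurable 1
      (Filter.Eventually.of_forall fun z => ?_)
  split_ifs <;> simp

theorem exp_lower (n k : ℕ) :
    (n : ℝ) / (k + 1) ≤ ∫ ω, (kWidth k (setLt ω) : ℝ) ∂(law n) := by
  have hk : (0 : ℝ) < (k : ℝ) + 1 := by positivity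
  set x : ℝ := 1 / ((k : ℝ) + 1) with hx
  have hx0 : 0 ≤ x := by positivity
  have hx1 : x ≤ 1 := by
    rw [hx, div_le_one hk]
    have := Nat.cast_nonneg (α := ℝ) k
    linarith
  have hmlo : MeasurableSet {z : ℝ × ℝ | lo z ≤ x} := measurableSet_le measurable_lo measurable_const
  have hmhi : MeasurableSet {z : ℝ × ℝ | hi z ≤ x} := measurableSet_le measurable_hi measurable_const
  have hpt : ∀ ω : Fin n → ℝ × ℝ,
      ((((Finset.univ : Finset (Fin n)).filter fun i => lo (ω i) ≤ x).card : ℕ) : ℝ) ≤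
        kWidth k (setLt ω) +
          k * ((((Finset.univ : Finset (Fin n)).filter fun i => hi (ω i) ≤ x).card : ℕ) : ℝ) := by
    intro ω
    have := width_lower k (setLt ω) ((Finset.univ : Finset (Fin n)).filter fun i => lo (ω i) ≤ x)
      ((Finset.univ : Finset (Fin n)).filter fun i => hi (ω i) ≤ x) (by
        intro y hy z hz
        rw [Finset.mem_filter] at hy ⊢
        exact ⟨Finset.mem_univ _, le_trans hz hy.2⟩)
    exact_mod_cast this
  have hint := integral_mono (integrable_card _ hmlo)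
    ((integrable_width k setLt meas_setLt).add ((integrable_card _ hmhi).const_mul (k : ℝ))) hpt
  have h2 : ∫ ω, ((kWidth k (setLt ω) : ℝ) + (k : ℝ) *
      ((((Finset.univ : Finset (Fin n)).filter fun i => hi (ω i) ≤ x).card : ℕ) : ℝ)) ∂(law n) =
      ∫ ω, (kWidth k (setLt ω) : ℝ) ∂(law n) + k * (n * x ^ 2) := by
    rw [← nu_hi hx0 hx1]
    have h3 := integral_card (n := n) Finset.univ hmhi
    rw [Finset.card_univ, Fintype.card_fin] at h3
    rw [← h3, ← integral_const_mul]
    exact integral_add (integrable_width k setLt meas_setLt)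
      ((integrable_card _ hmhi).const_mul (k : ℝ))
  have h4 := integral_card (n := n) Finset.univ hmlo
  rw [Finset.card_univ, Fintype.card_fin, nu_lo hx0 hx1] at h4
  have h5 : (n : ℝ) * (2 * x - x ^ 2) ≤
      ∫ ω, (kWidth k (setLt ω) : ℝ) ∂(law n) + k * (n * x ^ 2) := by
    rw [← h4, ← h2]
    exact hint
  have h6 : (n : ℝ) / (k + 1) = n * (2 * x - x ^ 2) - k * (n * x ^ 2) := by
    have h7 : ((k : ℝ) + 1) * x = 1 := by rw [hx]; field_simp
    have h8 : (n : ℝ) / (k + 1) = n * x := by rw [hx]; ring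
    rw [h8]
    linear_combination (n : ℝ) * x * h7
  rw [h6]
  linarith

theorem ae_good (n : ℕ) : ∀ᵐ ω ∂(law n), ∀ i, 0 < lo (ω i) ∧ hi (ω i) < 1 := by
  rw [ae_all_iff]
  intro i
  have h1 : ∀ᵐ z ∂nu, 0 < lo z ∧ hi z < 1 := by
    have h2 : ∀ᵐ z ∂nu, z ∈ Set.Ioo (0 : ℝ) 1 ×ˢ Set.Ioo (0 : ℝ) 1 := by
      have : nu = (volume.prod volume).restrict (Set.Ioo (0 : ℝ) 1 ×ˢ Set.Ioo (0 : ℝ) 1) :=
        Measure.prod_restrict _ _
      rw [this]
      exact ae_restrict_mem (measurableSet_Ioo.prod measurableSet_Ioo)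
    filter_upwards [h2] with z hz
    obtain ⟨⟨h3, h4⟩, ⟨h5, h6⟩⟩ := hz
    exact ⟨lt_min h3 h5, max_lt h4 h6⟩
  have h3 := (measurePreserving_eval (fun _ : Fin n => nu) i).quasiMeasurePreserving.ae h1
  exact h3

theorem integrable_devA {n : ℕ} (T : Finset (Fin n)) (y : ℝ) :
    Integrable (fun ω : Fin n → ℝ × ℝ => devA T y ω) (law n) :=
  ((integrable_card T (measurableSet_le measurable_lo measurable_const)).sub
    (integrable_const _)).abs

theorem integrable_devB {n : ℕ} (T : Finset (Fin n)) (y : ℝ) :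
    Integrable (fun ω : Fin n → ℝ × ℝ => devB T y ω) (law n) :=
  ((integrable_card T (measurableSet_le measurable_hi measurable_const)).sub
    (integrable_const _)).abs

theorem int_devA {n L : ℕ} (hL : 0 < L) (s : ℕ) (y : ℝ) :
    ∫ ω, devA (blk n L s) y ω ∂(law n) ≤ √L :=
  (integral_dev (blk n L s) (measurableSet_le measurable_lo measurable_const)).trans
    (Real.sqrt_le_sqrt (by exact_mod_cast blk_card_le hL s))

theorem int_devB {n L : ℕ} (hL : 0 < L) (s : ℕ) (y : ℝ) :
    ∫ ω, devB (blk n L s) y ω ∂(law n) ≤ √L :=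
  (integral_dev (blk n L s) (measurableSet_le measurable_hi measurable_const)).trans
    (Real.sqrt_le_sqrt (by exact_mod_cast blk_card_le hL s))

theorem exp_upper {n k L M : ℕ} (hL : 0 < L) (hM : 0 < M) :
    ∫ ω, (kWidth k (seqLt ω) : ℝ) ∂(law n) ≤
      n / (k + 1) + L + n * ((1 + k) * (2 / M)) +
        ((n : ℝ) / L + 1) * ((1 + k) * ((M + 1) * √L)) := by
  have hsA : ∀ s, Integrable (fun ω : Fin n → ℝ × ℝ =>
      ∑ g ∈ Finset.range (M + 1), devA (blk n L s) ((g : ℝ) / M) ω) (law n) := fun s =>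
    integrable_finsetSum _ fun g _ => integrable_devA _ _
  have hsB : ∀ s, Integrable (fun ω : Fin n → ℝ × ℝ =>
      ∑ g ∈ Finset.range (M + 1), devB (blk n L s) ((g : ℝ) / M) ω) (law n) := fun s =>
    integrable_finsetSum _ fun g _ => integrable_devB _ _
  have hsAB : ∀ s, Integrable (fun ω : Fin n → ℝ × ℝ =>
      ((∑ g ∈ Finset.range (M + 1), devA (blk n L s) ((g : ℝ) / M) ω) +
      k * ∑ g ∈ Finset.range (M + 1), devB (blk n L s) ((g : ℝ) / M) ω)) (law n) := fun s =>
    (hsA s).add ((hsB s).const_mul (k : ℝ))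
  have hall : Integrable (fun ω : Fin n → ℝ × ℝ => ∑ s ∈ Finset.range (n / L + 1),
    ((∑ g ∈ Finset.range (M + 1), devA (blk n L s) ((g : ℝ) / M) ω) +
      k * ∑ g ∈ Finset.range (M + 1), devB (blk n L s) ((g : ℝ) / M) ω)) (law n) :=
    integrable_finsetSum _ fun s _ => hsAB s
  have herr : Integrable (fun ω => err n k L M ω) (law n) := (integrable_const _).add hall
  have h1 : ∫ ω, (kWidth k (seqLt ω) : ℝ) ∂(law n) ≤ ∫ ω, err n k L M ω ∂(law n) := by
    refine integral_mono_ae (integrable_width k seqLt meas_seqLt) herr ?_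
    filter_upwards [ae_good n] with ω hω
    exact seq_upper hL hM ω hω
  refine h1.trans ?_
  have h2 : ∫ ω, err n k L M ω ∂(law n) = (n / (k + 1) + L + n * ((1 + k) * (2 / M))) +
      ∑ s ∈ Finset.range (n / L + 1), ((∑ g ∈ Finset.range (M + 1),
        ∫ ω, devA (blk n L s) ((g : ℝ) / M) ω ∂(law n)) +
      k * ∑ g ∈ Finset.range (M + 1), ∫ ω, devB (blk n L s) ((g : ℝ) / M) ω ∂(law n)) := by
    unfold err
    rw [integral_add (integrable_const _) hall, integral_finsetSum _ fun s _ => hsAB s]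
    congr 1
    · simp
    · refine Finset.sum_congr rfl fun s _ => ?_
      rw [integral_add (hsA s) ((hsB s).const_mul (k : ℝ)), integral_const_mul,
        integral_finsetSum _ fun g _ => integrable_devA _ _,
        integral_finsetSum _ fun g _ => integrable_devB _ _]
  rw [h2]
  have h3 : ∀ s ∈ Finset.range (n / L + 1), ((∑ g ∈ Finset.range (M + 1),
        ∫ ω, devA (blk n L s) ((g : ℝ) / M) ω ∂(law n)) +
      k * ∑ g ∈ Finset.range (M + 1), ∫ ω, devB (blk n L s) ((g : ℝ) / M) ω ∂(law n)) ≤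
      (1 + k) * ((M + 1) * √L) := by
    intro s _
    have h4 : ∑ g ∈ Finset.range (M + 1), ∫ ω, devA (blk n L s) ((g : ℝ) / M) ω ∂(law n) ≤
        (M + 1) * √L := by
      refine (Finset.sum_le_card_nsmul _ _ _ fun g _ => int_devA hL s _).trans ?_
      rw [Finset.card_range, nsmul_eq_mul]; push_cast; exact le_rfl
    have h5 : ∑ g ∈ Finset.range (M + 1), ∫ ω, devB (blk n L s) ((g : ℝ) / M) ω ∂(law n) ≤
        (M + 1) * √L := by
      refine (Finset.sum_le_card_nsmul _ _ _ fun g _ => int_devB hL s _).trans ?_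
      rw [Finset.card_range, nsmul_eq_mul]; push_cast; exact le_rfl
    have h6 := mul_le_mul_of_nonneg_left h5 (Nat.cast_nonneg k (α := ℝ))
    linarith
  have h7 := Finset.sum_le_card_nsmul _ _ _ h3
  rw [Finset.card_range, nsmul_eq_mul] at h7
  have h8 : ((n / L + 1 : ℕ) : ℝ) ≤ (n : ℝ) / L + 1 := by
    push_cast
    have : ((n / L : ℕ) : ℝ) ≤ (n : ℝ) / L := Nat.cast_div_le
    linarith
  have h9 : ((n / L + 1 : ℕ) : ℝ) * ((1 + k) * ((M + 1) * √L)) ≤
      ((n : ℝ) / L + 1) * ((1 + k) * ((M + 1) * √L)) :=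
    mul_le_mul_of_nonneg_right h8 (by positivity)
  linarith

theorem set_le_seq (n k : ℕ) : ∫ ω, (kWidth k (setLt ω) : ℝ) ∂(law n) ≤
    ∫ ω, (kWidth k (seqLt ω) : ℝ) ∂(law n) := by
  refine integral_mono (integrable_width k setLt meas_setLt) (integrable_width k seqLt meas_seqLt)
    fun ω => ?_
  have h1 : kWidth k (setLt ω) ≤ kWidth k (seqLt ω) := width_mono k fun x y h => h.2
  exact Nat.cast_le.2 h1

theorem upper_eventually (k : ℕ) {ε : ℝ} (hε : 0 < ε) :
    ∀ᶠ n : ℕ in atTop, (∫ ω, (kWidth k (seqLt ω) : ℝ) ∂(law n)) / n < 1 / ((k : ℝ) + 1) + ε := by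
  have hk : (0 : ℝ) < (k : ℝ) + 1 := by positivity
  -- choose `M`
  obtain ⟨M, hM⟩ := exists_nat_gt ((1 + k) * 2 / (ε / 4))
  have hM0 : (0 : ℝ) < M := lt_of_le_of_lt (by positivity) hM
  have hM' : 0 < M := by exact_mod_cast hM0
  have hMε : (1 + (k : ℝ)) * (2 / M) < ε / 4 := by
    rw [div_lt_iff₀ (by positivity)] at hM
    rw [← mul_div_assoc, div_lt_iff₀ hM0]
    linarith
  -- choose `L`
  set C : ℝ := (1 + k) * (M + 1) with hC
  have hC0 : 0 < C := by positivity
  obtain ⟨L, hL⟩ := exists_nat_gt ((C / (ε / 4)) ^ 2)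
  have hL0 : (0 : ℝ) < L := lt_of_le_of_lt (by positivity) hL
  have hL' : 0 < L := by exact_mod_cast hL0
  have hsL : 0 < √(L : ℝ) := Real.sqrt_pos.2 hL0
  have hLε : C / √(L : ℝ) < ε / 4 := by
    have h1 : C / (ε / 4) < √(L : ℝ) := Real.lt_sqrt_of_sq_lt hL
    rw [div_lt_iff₀ (by positivity)] at h1
    rw [div_lt_iff₀ hsL]
    linarith
  -- large `n`
  have hlim : Tendsto (fun n : ℕ => ((L : ℝ) + C * √L) / (n : ℝ)) atTop (𝓝 0) :=
    tendsto_const_div_atTop_nhds_zero_nat _
  filter_upwards [hlim.eventually (gt_mem_nhds (show (0 : ℝ) < ε / 4 by positivity)),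
    eventually_gt_atTop 0] with n hn hn0
  have hn' : (0 : ℝ) < n := by exact_mod_cast hn0
  have h1 := exp_upper (n := n) (k := k) hL' hM'
  have h2 : (∫ ω, (kWidth k (seqLt ω) : ℝ) ∂(law n)) / n ≤
      1 / ((k : ℝ) + 1) + (1 + (k : ℝ)) * (2 / M) + C / √(L : ℝ) +
        ((L : ℝ) + C * √L) / (n : ℝ) := by
    rw [div_le_iff₀ hn']
    refine h1.trans (le_of_eq ?_)
    have hsq : √(L : ℝ) * √(L : ℝ) = L := Real.mul_self_sqrt hL0.le
    have h3 : C / √(L : ℝ) = C * √(L : ℝ) / L := by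
      rw [div_eq_div_iff hsL.ne' hL0.ne']
      linear_combination (-C) * hsq
    rw [h3, hC]
    field_simp
    ring
  linarith

theorem tendsto_seq (k : ℕ) : Tendsto (fun n : ℕ =>
    (∫ ω, (kWidth k (seqLt ω) : ℝ) ∂(law n)) / n) atTop (𝓝 (1 / ((k : ℝ) + 1))) := by
  rw [tendsto_order]
  constructor
  · intro a ha
    filter_upwards [eventually_gt_atTop 0] with n hn
    have hn' : (0 : ℝ) < n := by exact_mod_cast hn
    refine ha.trans_le ?_
    rw [le_div_iff₀ hn']
    refine le_trans (le_of_eq ?_) ((exp_lower n k).trans (set_le_seq n k))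
    ring
  · intro a ha
    have := upper_eventually k (sub_pos.2 ha)
    filter_upwards [this] with n hn
    linarith

theorem tendsto_set (k : ℕ) : Tendsto (fun n : ℕ =>
    (∫ ω, (kWidth k (setLt ω) : ℝ) ∂(law n)) / n) atTop (𝓝 (1 / ((k : ℝ) + 1))) := by
  refine tendsto_of_tendsto_of_tendsto_of_le_of_le' tendsto_const_nhds (tendsto_seq k) ?_ ?_
  · filter_upwards [eventually_gt_atTop 0] with n hn
    have hn' : (0 : ℝ) < n := by exact_mod_cast hn
    rw [le_div_iff₀ hn']
    refine le_trans (le_of_eq ?_) (exp_lower n k)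
    ring
  · refine Eventually.of_forall fun n => ?_
    exact div_le_div_of_nonneg_right (set_le_seq n k) (Nat.cast_nonneg _)

end Q289.KW
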