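import Pool.Agent.Q289.KW.Comb

/-!
# The k-width of random intervals: probabilities
-/

set_option autoImplicit false

open MeasureTheory ProbabilityTheory

namespace Q289.KW

/-- the law of one random interval -/
noncomputable abbrev nu : Measure (ℝ × ℝ) :=
  (volume.restrict (Set.Ioo (0 : ℝ) 1)).prod (volume.restrict (Set.Ioo (0 : ℝ) 1))

instance : IsProbabilityMeasure (volume.restrict (Set.Ioo (0 : ℝ) 1)) :=
  ⟨by rw [Measure.restrict_apply_univ, Real.volume_Ioo]; simp⟩

instance (n : ℕ) : IsProbabilityMeasure (law n) := by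
  unfold law; infer_instance

theorem measurable_lo : Measurable lo := by unfold lo; fun_prop

theorem measurable_hi : Measurable hi := by unfold hi; fun_prop

theorem unif_Iic {x : ℝ} (h0 : 0 ≤ x) (h1 : x ≤ 1) :
    (volume.restrict (Set.Ioo (0 : ℝ) 1)).real (Set.Iic x) = x := by
  rw [measureReal_restrict_apply measurableSet_Iic]
  rcases h1.lt_or_eq with h | h
  · have : Set.Iic x ∩ Set.Ioo (0 : ℝ) 1 = Set.Ioc 0 x := by
      ext y
      simp only [Set.mem_inter_iff, Set.mem_Iic, Set.mem_Ioo, Set.mem_Ioc]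
      constructor
      · rintro ⟨h1, h2, h3⟩; exact ⟨h2, h1⟩
      · rintro ⟨h1, h2⟩; exact ⟨h2, h1, by linarith⟩
    rw [this, Real.volume_real_Ioc_of_le h0, sub_zero]
  · subst h
    have : Set.Iic (1 : ℝ) ∩ Set.Ioo (0 : ℝ) 1 = Set.Ioo 0 1 := by
      ext y
      simp only [Set.mem_inter_iff, Set.mem_Iic, Set.mem_Ioo]
      constructor
      · rintro ⟨h1, h2, h3⟩; exact ⟨h2, h3⟩
      · rintro ⟨h1, h2⟩; exact ⟨h2.le, h1, h2⟩
    rw [this, Real.volume_real_Ioo_of_le h0, sub_zero]

theorem unif_Ioi {x : ℝ} (h0 : 0 ≤ x) (h1 : x ≤ 1) :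
    (volume.restrict (Set.Ioo (0 : ℝ) 1)).real (Set.Ioi x) = 1 - x := by
  have := probReal_compl_eq_one_sub (μ := volume.restrict (Set.Ioo (0 : ℝ) 1))
    (s := Set.Iic x) measurableSet_Iic
  rw [Set.compl_Iic, unif_Iic h0 h1] at this
  exact this

theorem nu_hi {x : ℝ} (h0 : 0 ≤ x) (h1 : x ≤ 1) : nu.real {z | hi z ≤ x} = x ^ 2 := by
  have : {z : ℝ × ℝ | hi z ≤ x} = Set.Iic x ×ˢ Set.Iic x := by
    ext z
    simp only [hi, Set.mem_ofPred_eq, max_le_iff, Set.mem_prod, Set.mem_Iic]
  rw [this, measureReal_prod_prod, unif_Iic h0 h1]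
  ring

theorem nu_lo {x : ℝ} (h0 : 0 ≤ x) (h1 : x ≤ 1) : nu.real {z | lo z ≤ x} = 2 * x - x ^ 2 := by
  have h2 : {z : ℝ × ℝ | lo z ≤ x}ᶜ = Set.Ioi x ×ˢ Set.Ioi x := by
    ext z
    simp only [lo, Set.mem_ofPred_eq, min_le_iff, Set.mem_prod, Set.mem_Ioi, Set.mem_compl_iff,
      not_or, not_le]
  have h3 : MeasurableSet {z : ℝ × ℝ | lo z ≤ x} := measurableSet_le measurable_lo measurable_const
  have h4 := probReal_compl_eq_one_sub (μ := nu) h3
  rw [h2, measureReal_prod_prod, unif_Ioi h0 h1] at h4
  nlinarith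

theorem measurable_indic {P : ℝ × ℝ → Prop} [DecidablePred P] (hP : MeasurableSet {z | P z}) :
    Measurable (fun z => if P z then (1 : ℝ) else 0) :=
  Measurable.ite hP measurable_const measurable_const

/-- the expected number of indices in a set -/
theorem integral_card {n : ℕ} (T : Finset (Fin n)) {P : ℝ × ℝ → Prop} [DecidablePred P]
    (hP : MeasurableSet {z | P z}) :
    ∫ ω, (((T.filter fun i => P (ω i)).card : ℕ) : ℝ) ∂(law n) = T.card * nu.real {z | P z} := by
  have h1 : ∀ ω : Fin n → ℝ × ℝ, (((T.filter fun i => P (ω i)).card : ℕ) : ℝ) =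
      ∑ i ∈ T, (if P (ω i) then (1 : ℝ) else 0) := by
    intro ω
    rw [Finset.card_filter]
    push_cast
    rfl
  have h2 : Integrable (fun z => if P z then (1 : ℝ) else 0) nu := by
    refine Integrable.of_bound (measurable_indic hP).aestronglyMeasurable 1
      (Filter.Eventually.of_forall fun z => ?_)
    split_ifs <;> simp
  simp_rw [h1]
  rw [integral_finsetSum]
  · rw [Finset.sum_congr rfl (g := fun _ => nu.real {z | P z})]
    · rw [Finset.sum_const, nsmul_eq_mul]
    · intro i _
      have h3 := integral_comp_eval (μ := fun _ : Fin n => nu) (i := i)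
        (f := fun z => if P z then (1 : ℝ) else 0) (measurable_indic hP).aestronglyMeasurable
      unfold law
      rw [h3]
      have h4 : (fun z => if P z then (1 : ℝ) else 0) = Set.indicator {z | P z} 1 := by
        ext z
        simp [Set.indicator_apply]
      rw [h4, integral_indicator_one hP]
  · intro i _
    exact integrable_comp_eval (μ := fun _ : Fin n => nu) (i := i) h2

/-- the deviation of the number of indices in a set has small expectation -/
theorem integral_dev {n : ℕ} (T : Finset (Fin n)) {P : ℝ × ℝ → Prop} [DecidablePred P]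
    (hP : MeasurableSet {z | P z}) :
    ∫ ω, |(((T.filter fun i => P (ω i)).card : ℕ) : ℝ) - T.card * nu.real {z | P z}| ∂(law n) ≤
      √(T.card) := by
  classical
  set q := nu.real {z | P z} with hq
  have hq0 : 0 ≤ q := measureReal_nonneg
  have hq1 : q ≤ 1 := measureReal_le_one
  set f : ℝ × ℝ → ℝ := fun z => if P z then (1 : ℝ) else 0 with hf
  have hfm : Measurable f := measurable_indic hP
  set X : Fin n → ℝ × ℝ → ℝ := fun i z => if i ∈ T then f z else 0 with hX
  have hXm : ∀ i, Measurable (X i) := by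
    intro i
    by_cases hi : i ∈ T
    · simpa [hX, hi] using hfm
    · simp only [hX, hi, if_false]; exact measurable_const
  have hXb : ∀ i z, |X i z| ≤ 1 := by
    intro i z
    simp only [hX, hf]
    split_ifs <;> simp
  have hXL : ∀ i, MemLp (X i) 2 nu := fun i =>
    MemLp.of_bound (hXm i).aestronglyMeasurable 1 (Filter.Eventually.of_forall (hXb i))
  have h1 : ∀ ω : Fin n → ℝ × ℝ, (((T.filter fun i => P (ω i)).card : ℕ) : ℝ) =
      (∑ i, fun ω : Fin n → ℝ × ℝ => X i (ω i)) ω := by
    intro ω
    rw [Finset.card_filter, Finset.sum_apply]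
    push_cast
    simp only [hX, hf]
    rw [← Finset.sum_filter]
    simp
  have hSm : Measurable (∑ i, fun ω : Fin n → ℝ × ℝ => X i (ω i)) := by
    have h2 : (∑ i, fun ω : Fin n → ℝ × ℝ => X i (ω i)) = fun ω => ∑ i, X i (ω i) := by
      funext ω
      rw [Finset.sum_apply]
    rw [h2]
    exact Finset.measurable_sum _ fun i _ => (hXm i).comp (measurable_pi_apply i)
  have hSb : ∀ ω, |(∑ i, fun ω : Fin n → ℝ × ℝ => X i (ω i)) ω| ≤ n := by
    intro ω
    rw [← h1, abs_of_nonneg (Nat.cast_nonneg _)]
    have : (T.filter fun i => P (ω i)).card ≤ n := by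
      refine (Finset.card_le_univ _).trans ?_
      simp
    exact_mod_cast this
  have hSL : MemLp (∑ i, fun ω : Fin n → ℝ × ℝ => X i (ω i)) 2 (law n) :=
    MemLp.of_bound hSm.aestronglyMeasurable n (Filter.Eventually.of_forall hSb)
  have hmean : ∫ ω, (∑ i, fun ω : Fin n → ℝ × ℝ => X i (ω i)) ω ∂(law n) = T.card * q := by
    rw [← integral_card T hP]
    exact integral_congr_ae (Filter.Eventually.of_forall fun ω => (h1 ω).symm)
  have hvar : Var[∑ i, fun ω : Fin n → ℝ × ℝ => X i (ω i); law n] ≤ T.card := by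
    unfold law
    rw [variance_sum_pi hXL]
    have : ∀ i, Var[X i; nu] ≤ if i ∈ T then (1 : ℝ) else 0 := by
      intro i
      by_cases hi : i ∈ T
      · rw [if_pos hi]
        refine (variance_le_expectation_sq (hXm i).aestronglyMeasurable).trans ?_
        have : ∫ z, (X i ^ 2) z ∂nu ≤ ∫ z, (1 : ℝ) ∂nu := by
          refine integral_mono_of_nonneg (Filter.Eventually.of_forall fun z => ?_)
            (integrable_const _) (Filter.Eventually.of_forall fun z => ?_)
          · exact sq_nonneg _
          · have := hXb i z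
            simp only [Pi.pow_apply]
            nlinarith [abs_nonneg (X i z), sq_abs (X i z)]
        simpa using this
      · rw [if_neg hi]
        have : X i = fun _ => 0 := by
          ext z; simp [hX, hi]
        rw [this]
        refine (variance_le_expectation_sq aestronglyMeasurable_const).trans ?_
        simp
    refine (Finset.sum_le_sum fun i _ => this i).trans ?_
    rw [← Finset.sum_filter]
    simp
  -- Cauchy-Schwarz
  set S : (Fin n → ℝ × ℝ) → ℝ := ∑ i, fun ω : Fin n → ℝ × ℝ => X i (ω i) with hS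
  have hint : ∫ ω, (S ω - T.card * q) ^ 2 ∂(law n) ≤ T.card := by
    have h5 := variance_eq_integral (μ := law n) hSm.aemeasurable
    rw [hmean] at h5
    rw [← h5]
    exact hvar
  have hgoal : ∫ ω, |(((T.filter fun i => P (ω i)).card : ℕ) : ℝ) - T.card * q| ∂(law n) =
      ∫ ω, |S ω - T.card * q| ∂(law n) :=
    integral_congr_ae (Filter.Eventually.of_forall fun ω => by simp only [h1 ω, hS])
  rw [hgoal]
  have hi2 : Integrable (fun ω => (S ω - T.card * q) ^ 2) (law n) := by
    have := (hSL.sub (memLp_const (T.card * q))).integrable_sq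
    simpa using this
  by_cases hT : T.card = 0
  · have h6 : ∀ ω, |S ω - T.card * q| = 0 := by
      intro ω
      rw [Finset.card_eq_zero] at hT
      have : S ω = 0 := by
        rw [← h1 ω, hT]; simp
      rw [this, hT]; simp
    simp [h6]
  · set a : ℝ := √(T.card) with ha
    have ha0 : 0 < a := Real.sqrt_pos.2 (by exact_mod_cast Nat.pos_of_ne_zero hT)
    have ha2 : a ^ 2 = T.card := Real.sq_sqrt (Nat.cast_nonneg _)
    have h7 : ∀ ω, |S ω - T.card * q| ≤ (S ω - T.card * q) ^ 2 / (2 * a) + a / 2 := by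
      intro ω
      have h8 : 0 ≤ (|S ω - T.card * q| - a) ^ 2 := sq_nonneg _
      have h9 := sq_abs (S ω - T.card * q)
      have h10 : (S ω - T.card * q) ^ 2 / (2 * a) + a / 2 =
          ((S ω - T.card * q) ^ 2 + a ^ 2) / (2 * a) := by
        field_simp
      rw [h10, le_div_iff₀ (by positivity)]
      nlinarith
    calc ∫ ω, |S ω - T.card * q| ∂(law n)
        ≤ ∫ ω, ((S ω - T.card * q) ^ 2 / (2 * a) + a / 2) ∂(law n) := by
          refine integral_mono_of_nonneg (Filter.Eventually.of_forall fun ω => abs_nonneg _)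
            ((hi2.div_const _).add (integrable_const _)) (Filter.Eventually.of_forall h7)
      _ = (∫ ω, (S ω - T.card * q) ^ 2 ∂(law n)) / (2 * a) + a / 2 := by
          rw [integral_add (hi2.div_const _) (integrable_const _), integral_div]
          simp
      _ ≤ a ^ 2 / (2 * a) + a / 2 := by
          rw [ha2]
          gcongr
      _ = a := by field_simp; ring

end Q289.KW
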